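import Pool.Agent.Lib.Hin.Main
import Pool.Agent.Lib.Hin.Compl

/-!
# `ACA_0` proves `HT_2^{≤2}`

The definitions of the statement are in `Pool.Agent.Lib.Hin.Defs` (language, satisfaction, the
theory `ACA0`, the sentences `HT n k`) and `Pool.Agent.Lib.Hin.Calc` (Hilbert calculus `Prov`, proved
sound and complete in `Prov.sound`, `Prov.complete`).  A proof on paper is in
`Pool/Agent/Lib/Hin/PROOF.md`.
-/

namespace Pool.Agent.Results.MP_1485b8_lc.BoundedHindman

open Pool.Agent.Lib.Hin

universe u

/-- `ACA_0 ⊢ HT_2^{≤2}`: there is a formal proof of the sentence `HT 2 2` from the axioms of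
`ACA_0`; in particular `HT 2 2` holds in every `L_2`-structure (of any universe) that is a model
of `ACA_0`. -/
theorem result : Prov ACA0 (HT 2 2) ∧ Proves.{u} ACA0 (HT 2 2) :=
  ⟨Prov.complete main, main⟩

end Pool.Agent.Results.MP_1485b8_lc.BoundedHindman
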